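import Mathlib
import Pool.Agent.Run7.h595.CM.Export

set_option autoImplicit false

/-!
# Composition of divisor classes at generic points

A system is a multiset of multiplicities at general points of the projective plane. It is
`Critical D` if its number of conditions is between those of one point of multiplicity `D` and of
one point of multiplicity `D + 1`, and if it is of expected dimension in the two degrees `D - 1` and
`D`. There is no condition on the multiplicities. Uniform systems (`N` points of the same
multiplicity) with `N = 1`, `N = 21` or `N ≥ 37` or `N` as in (2) are critical (last part of the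
theorem).

Let `v i` be `Critical (D i)` for `i < n`, and let `W` be a further system.

(1) If all systems `(u, W)` with `u i ∈ {D i, D i + 1}` are of expected dimension in degree `d`, then
so is `(v, W)`, in which the `i`-th point of `u` is replaced by the whole system `v i`.

(2) If `n` is `4 ^ (k + 1)`, `9 * 4 ^ k` or `13 * 4 ^ k`, or divisible by four and at least `144`, or
at least `200`, and all `D i` are equal, then the union of the `v i` is of expected dimension in EVERY
degree. The multiplicities, their ratios and the number of different multiplicities are arbitrary;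
four or nine systems are enough. Examples: `4` or `9` copies of a system which is of expected dimension
in its two critical degrees; one point of multiplicity `3 m` and `27` points of multiplicity `m`.

(3) `n` of `N ≥ 37` points of multiplicity `m ≥ (N + 6) / 2` may be replaced by arbitrary systems
which are `Critical m`, if `n < 7 √N / 6 - c / 2 - 9 / 8` or `n ≤ N / 4 - c - 2 √N / 3 - 23 / 8`,
`c = 0, 5, 2, 3` for `N ≡ 0, 1, 2, 3` modulo four, and the result is of expected dimension in EVERY
degree.

All of this is for points whose coordinates are algebraically independent over `ℚ`, over any field of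
characteristic zero. If the class `d H - ∑ w i E i` is effective and has the expected dimension, then
its `h¹` is zero. So every prime divisor with the multiplicities of (2) or (3) has `h¹ = 0`, and
every prime divisor of degree `d` with the multiplicities of (1).
-/

namespace Pool.Agent.Results.MP_0dccba_ag.Composition

open Finset

/-- The homogeneous ideal of the fat points with support `(P i 0 : P i 1 : 1)` and multiplicity
`w i`: the intersection of the `w i`-th powers of the ideals of the points. -/
noncomputable def fat {k : Type} [Field k] {s : ℕ} (P : Fin s → Fin 2 → k) (w : Fin s → ℕ) :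
    Ideal (MvPolynomial (Fin 3) k) :=
  ⨅ i : Fin s,
    (Ideal.span
      ({MvPolynomial.X 0 - MvPolynomial.C (P i 0) * MvPolynomial.X 2,
        MvPolynomial.X 1 - MvPolynomial.C (P i 1) * MvPolynomial.X 2} :
        Set (MvPolynomial (Fin 3) k))) ^ (w i)

/-- The forms of degree `d` with multiplicity at least `w i` at `P i` for all `i`: the sections of
`d H - ∑ w i E i` on the blow-up of the plane at the points `P`. -/
noncomputable def forms {k : Type} [Field k] {s : ℕ} (P : Fin s → Fin 2 → k) (w : Fin s → ℕ)
    (d : ℕ) : Submodule k (MvPolynomial (Fin 3) k) :=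
  MvPolynomial.homogeneousSubmodule (Fin 3) k d ⊓ Submodule.restrictScalars k (fat P w)

/-- The multiset of the multiplicities. -/
def mults {n : ℕ} (w : Fin n → ℕ) : Multiset ℕ := Multiset.map w Finset.univ.val

/-- The number of conditions. -/
def conditions (v : Multiset ℕ) : ℕ := (v.map fun a => (a + 1).choose 2).sum

/-- The class of degree `d` with the multiplicities `v` at generic points has the expected
dimension. -/
def ExpectedIn (d : ℕ) (v : Multiset ℕ) : Prop :=
  ∀ (k : Type) [Field k] [CharZero k] (s : ℕ) (w : Fin s → ℕ), mults w = v →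
    ∀ P : Fin s → Fin 2 → k,
    AlgebraicIndependent ℚ (fun ij : Fin s × Fin 2 => P ij.1 ij.2) →
    Module.finrank k (forms P w d) = Nat.choose (d + 2) 2 - ∑ i, Nat.choose (w i + 1) 2

/-- The classes with the multiplicities `v` at generic points have the expected dimension in all
degrees; in particular the effective ones, and so all prime divisors, have `h¹ = 0`. -/
def Regular (v : Multiset ℕ) : Prop :=
  ∀ (k : Type) [Field k] [CharZero k] (s : ℕ) (w : Fin s → ℕ), mults w = v →
    ∀ P : Fin s → Fin 2 → k,
    AlgebraicIndependent ℚ (fun ij : Fin s × Fin 2 => P ij.1 ij.2) →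
    ∀ d : ℕ,
    Module.finrank k (forms P w d) = Nat.choose (d + 2) 2 - ∑ i, Nat.choose (w i + 1) 2 ∧
    ((∃ G ∈ forms P w d, G ≠ 0) →
      Module.finrank k (forms P w d) + ∑ i, Nat.choose (w i + 1) 2 = Nat.choose (d + 2) 2)

/-- `v` is of expected dimension in the degrees `D - 1` and `D`, and its number of conditions is
between those of a point of multiplicity `D` and of a point of multiplicity `D + 1`. -/
def Critical (D : ℕ) (v : Multiset ℕ) : Prop :=
  1 ≤ D ∧ (D + 1).choose 2 ≤ conditions v ∧ conditions v ≤ (D + 2).choose 2 ∧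
    ExpectedIn (D - 1) v ∧ ExpectedIn D v

/-- The numbers of systems in (2). -/
def Number (a : ℕ) : Prop :=
  200 ≤ a ∨ (144 ≤ a ∧ 4 ∣ a) ∨ ∃ k, a = 4 ^ (k + 1) ∨ a = 9 * 4 ^ k ∨ a = 13 * 4 ^ k

/-- `0, 5, 2, 3` for `n ≡ 0, 1, 2, 3` modulo four. -/
def spare (n : ℕ) : ℕ := if n % 4 = 1 then 5 else n % 4

theorem expected_iff (d : ℕ) (v : Multiset ℕ) :
    ExpectedIn d v ↔ Pool.Agent.Run7.h595.CM.NS d v := by
  constructor
  · intro h
    obtain ⟨s, w, hw⟩ := Pool.Agent.TH545.SD.exists_fam v
    have hinj : Function.Injective (IsScalarTower.toAlgHom ℚ (MvPolynomial (Fin s × Fin 2) ℚ)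
        (FractionRing (MvPolynomial (Fin s × Fin 2) ℚ))) :=
      IsFractionRing.injective (MvPolynomial (Fin s × Fin 2) ℚ) _
    have hA := (MvPolynomial.algebraicIndependent_X (Fin s × Fin 2) ℚ).map' hinj
    have : CharZero (FractionRing (MvPolynomial (Fin s × Fin 2) ℚ)) := algebraRat.charZero _
    have h1 := h (FractionRing (MvPolynomial (Fin s × Fin 2) ℚ)) s w
      (by rw [← hw]; exact Pool.Agent.Run7.h595.CM.mu_eq w)
      (fun i j => IsScalarTower.toAlgHom ℚ (MvPolynomial (Fin s × Fin 2) ℚ)
        (FractionRing (MvPolynomial (Fin s × Fin 2) ℚ)) (MvPolynomial.X (i, j))) hA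
    rw [← hw]
    exact Pool.Agent.Run7.h595.CM.NS_of_fam
      (Pool.Agent.TH545.SD.emp_sur_at (fun i j => hA.ne_zero (i, j)) h1)
  · intro h k _ _ s w hw P hP
    have h0 : Pool.Agent.Run7.h595.CM.NS d (Pool.Agent.TH641.UM.ms w) := by
      have hw' : Pool.Agent.Run7.h595.CM.mu w = v := hw
      rw [← Pool.Agent.Run7.h595.CM.mu_eq w, hw']
      exact h
    obtain ⟨F, hF, hF'⟩ := h0.expDim
    exact hF' P (fun h0 => hF (hP.eq_zero_of_aeval_eq_zero F h0))

theorem regular_of (v : Multiset ℕ) (h : ∀ d, Pool.Agent.Run7.h595.CM.NS d v) : Regular v := by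
  intro k _ _ s w hw P hP d
  have h1 : Pool.Agent.H932R3.ExpDim k w P d := (expected_iff d v).2 (h d) k s w hw P hP
  refine ⟨h1, ?_⟩
  rintro ⟨G, hGm, hG⟩
  unfold forms fat at hGm ⊢
  rw [Submodule.mem_inf, Submodule.restrictScalars_mem, Ideal.mem_iInf] at hGm
  exact h1.eff hG hGm.1 hGm.2

theorem result :
    (∀ (n : ℕ) (D : Fin n → ℕ) (v : Fin n → Multiset ℕ) (W : Multiset ℕ),
      (∀ i, Critical (D i) (v i)) →
      (∀ d : ℕ,
        (∀ u : Fin n → ℕ, (∀ i, u i = D i ∨ u i = D i + 1) → ExpectedIn d (mults u + W)) →
        ExpectedIn d (∑ i, v i + W)) ∧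
      ((W = 0 ∧ Number n ∧ ∀ i j, D i = D j) ∨
        (∃ N m : ℕ, 37 ≤ N ∧ n ≤ N ∧ N + 6 ≤ 2 * m ∧ (∀ i, D i = m) ∧
          W = Multiset.replicate (N - n) m ∧
          ((n : ℝ) + (spare N : ℝ) / 2 + 9 / 8 < 7 * √(N : ℝ) / 6 ∨
            (n : ℝ) + spare N + 2 * √(N : ℝ) / 3 + 23 / 8 ≤ (N : ℝ) / 4)) →
        Regular (∑ i, v i + W))) ∧
    (∀ N m D : ℕ, 1 ≤ m → (N = 1 ∨ N = 21 ∨ 37 ≤ N ∨ Number N) → 1 ≤ D →
      (D + 1).choose 2 ≤ N * (m + 1).choose 2 → N * (m + 1).choose 2 ≤ (D + 2).choose 2 →
      Critical D (Multiset.replicate N m)) :=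
  Pool.Agent.Run7.h595.CM.master_of expected_iff regular_of

end Pool.Agent.Results.MP_0dccba_ag.Composition
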