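import Mathlib
import Pool.Agent.Run7.h866.NU.Fin
import Pool.Agent.Y536.SH.Full

set_option autoImplicit false

/-!
# Prime divisors with `h¹ ≠ 0` have a special standard form without a deciding near-uniform part

A function `v` is near-uniform on a set `T` of points if `|T| ≥ 200` and `v i ∈ {m, m + 1}` on `T` for
some `m ≥ 1`, or `|T| ≥ 37` and `v` is close to a constant `m ≥ (|T| + 6) / 2` on `T`. A class `(d; w)` is
controlled if for such `T`, `v`
* `w = v` on `T` and `w ≤ 1` at the other points, or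
* `w ≤ v` on `T`, `w ≤ 1` at the other points and `∑_T (v i + 1).choose 2 ≤ (d + 2).choose 2`, or
* `w ≥ v` on `T` and `(d + 2).choose 2 ≤ ∑_T (v i + 1).choose 2`.

Let `k` be a field of characteristic zero and `X` the blow-up of the plane at `s` generic points, and
let `C` be a prime divisor of class `(d; w)` on `X`. If `(d; w)` is controlled, then `h¹ (C) = 0`. If
`s ≥ 4`, then `h¹ (C) = 0`, or finitely many quadratic transformations carry `(d; w)` to a standard
class `(d1; w1)` with `h⁰ (d1; w1) = h⁰ (C)`, which is special and not controlled.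
-/

namespace Pool.Agent.Results.MP_0dccba_ag.PrimeNearReduction

open MvPolynomial Pool.Agent.TH167.SHDefs

/-- The cost of a multiplicity `e ≤ m + 1`. -/
def cost (m e : ℕ) : ℕ := if e < m then 4 * (m - e) - 2 else if e = m then 0 else 1

/-- `0, 5, 2, 3` for `t ≡ 0, 1, 2, 3` modulo four. -/
def spare (t : ℕ) : ℕ := if t % 4 = 1 then 5 else t % 4

/-- Near-uniform on the set `T` of points: entries `m`, `m + 1` at `200` or more points, or close to a
constant at `37` or more points. -/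
def NearUniform {n : ℕ} (T : Finset (Fin n)) (v : Fin n → ℕ) : Prop :=
  (200 ≤ T.card ∧ ∃ m : ℕ, 1 ≤ m ∧ ∀ i ∈ T, v i = m ∨ v i = m + 1) ∨
  (37 ≤ T.card ∧ ∃ m : ℕ, T.card + 6 ≤ 2 * m ∧ (∀ i ∈ T, v i ≤ m + 1) ∧
    (((∑ i ∈ T, cost m (v i) : ℕ) : ℝ) + (spare T.card : ℝ) / 2 + 9 / 8 <
        7 * Real.sqrt T.card / 6 ∨
      ((∑ i ∈ T, cost m (v i) : ℕ) : ℝ) + spare T.card + 2 * Real.sqrt T.card / 3 + 23 / 8 ≤
        (T.card : ℝ) / 4))

/-- The controlled classes. -/
def Controlled {n : ℕ} (d : ℕ) (w : Fin n → ℕ) : Prop :=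
  ∃ (T : Finset (Fin n)) (v : Fin n → ℕ), NearUniform T v ∧
    (((∀ i, i ∉ T → w i ≤ 1) ∧ ((∀ i ∈ T, w i = v i) ∨
        ((∀ i ∈ T, w i ≤ v i) ∧ ∑ i ∈ T, (v i + 1).choose 2 ≤ (d + 2).choose 2))) ∨
      ((∀ i ∈ T, v i ≤ w i) ∧ (d + 2).choose 2 ≤ ∑ i ∈ T, (v i + 1).choose 2))

/-- The class is standard. -/
def Standard {n : ℕ} (d : ℕ) (w : Fin n → ℕ) : Prop :=
  ∀ i j k : Fin n, i ≠ j → i ≠ k → j ≠ k → w i + w j + w k ≤ d

theorem ctrl_of {n d : ℕ} {w : Fin n → ℕ} (h : Controlled d w) :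
    Pool.Agent.Run7.h866.NU.Ctrl d w := by
  obtain ⟨T, v, hv, h⟩ := h
  refine Pool.Agent.Run7.h866.NU.ctrl_of_on (T := T) (v := v) ?_ h
  have ec : ∀ m e, cost m e = Pool.Agent.Run7.h866.NU.cst m e := fun _ _ => rfl
  have es : ∀ t, spare t = Pool.Agent.Run7.h866.NU.cc t := fun _ => rfl
  rcases hv with ⟨h1, m, hm, h2⟩ | ⟨h1, m, hm, h2, h3⟩
  · exact Or.inl ⟨h1, m, hm, h2⟩
  · simp only [ec, es] at h3
    exact Or.inr ⟨h1, m, hm, h2, h3⟩

/-- `h¹` of the class `d H - ∑ w i E i`: the dimension of the linear system minus the virtual one. -/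
noncomputable def hOne {k : Type} [Field k] {s : ℕ} (P : Fin s → Fin 2 → k) (d : ℕ)
    (w : Fin s → ℕ) : ℤ := dimL P d w - virtdim d w

theorem result (k : Type) [Field k] [CharZero k] (s : ℕ) (P : Fin s → Fin 2 → k)
    (hP : AlgebraicIndependent ℚ (fun ij : Fin s × Fin 2 => P ij.1 ij.2))
    (d : ℕ) (w : Fin s → ℕ) (C : MvPolynomial (Fin 3) k) (hC : Curve P C d w) :
    (Controlled d w → hOne P d w = 0) ∧
    (4 ≤ s → hOne P d w = 0 ∨ ∃ (d1 : ℕ) (w1 : Fin s → ℕ),
      Relation.ReflTransGen Quadratic (d, w) (d1, w1) ∧ Standard d1 w1 ∧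
      Special P d1 w1 ∧ dimL P d1 w1 = dimL P d w ∧ ¬ Controlled d1 w1) := by
  refine ⟨fun h => ?_, fun hs => ?_⟩
  · have h1 := Pool.Agent.Run7.h866.NU.ctrl_exp (ctrl_of h) hP
    have hCm : C ∈ sys P d w := by
      unfold sys
      rw [Submodule.mem_inf, mem_homogeneousSubmodule, Submodule.restrictScalars_mem,
        Ideal.mem_iInf]
      exact ⟨hC.homogeneous, fun i => (hC.mult i).1⟩
    have h6 : 0 < Module.finrank k ↥(sys P d w) := by
      rw [Pool.Agent.TH885.CO.sys_eq]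
      have hf := Pool.Agent.TH885.CO.vs_fin (fun j => Pool.Agent.W609.CR.aff (P j)) w d
      refine Module.finrank_pos_iff.2 ?_
      rw [← Pool.Agent.TH885.CO.sys_eq]
      exact ⟨⟨C, hCm⟩, 0, fun h7 => hC.irreducible.ne_zero (congrArg Subtype.val h7)⟩
    have h2 : Module.finrank k ↥(sys P d w) =
        Nat.choose (d + 2) 2 - ∑ i, Nat.choose (w i + 1) 2 := h1
    have h3 : ∑ i, ((w i + 1).choose 2 : ℤ) = ((∑ i, Nat.choose (w i + 1) 2 : ℕ) : ℤ) := by
      push_cast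
      rfl
    unfold hOne dimL virtdim
    rw [h3]
    omega
  · obtain ⟨r, rfl⟩ : ∃ r, s = r + 4 := ⟨s - 4, by omega⟩
    by_cases h : dimL P d w = virtdim d w
    · left
      unfold hOne
      omega
    · right
      obtain ⟨d1, w1, h1, h2, h3, h4, h5⟩ := Pool.Agent.Y536.SH.prime_full
        (Q := fun d' w' => Controlled d' w')
        (fun hP d1 w1 _ hG => Pool.Agent.Run7.h866.NU.ctrl_exp (ctrl_of hG) hP) hP hC h
      exact ⟨d1, w1, h1, h2, h3, h4, h5⟩

end Pool.Agent.Results.MP_0dccba_ag.PrimeNearReduction
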